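import Pool.Agent.Helper52_MA.Graphs

set_option autoImplicit false

namespace Helper52_MA

open Finset Classical Filter Helper42_MA

/-- Cost of a certificate of type I (marked vertices for both sides, centres with labels). -/
theorem logWI_le : ∀ᶠ n : ℕ in atTop, ∀ N d0 : ℕ, 1 ≤ N → N ≤ n → 0 < d0 →
    Nat.clog 2 n ≤ 160 * Nat.clog 2 (Nat.clog 2 n) * d0 →
    Real.log (Fintype.card (WI n N (N / d0))) ≤
      3000 * (N * (Real.log (n / N) + Real.log (Real.log n)) + n / Real.log n) := by
  filter_upwards [ev_facts] with n hn N d0 hN hNn hd0 hld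
  obtain ⟨h3, e1, e2, e3, hLL, hL, e4, e5, hsq⟩ := hn
  set l := Nat.clog 2 n with hl
  set lam := Nat.clog 2 l with hlam
  set K := N / d0 with hK
  have hn0 : (0:ℝ) < n := by
    have : 0 < n := by omega
    exact_mod_cast this
  have hN0 : (0:ℝ) < N := by exact_mod_cast hN
  have hNn' : (N:ℝ) ≤ n := by exact_mod_cast hNn
  have hl0 : (0:ℝ) < l := by linarith
  have hcardW : (Fintype.card (WI n N K) : ℝ) = n * (Fintype.card (Sparse n Bool false N) *
      (Fintype.card (Sparse n Bool false N) *
        Fintype.card (Sparse n (Option (Fin (n + 1))) none K))) := by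
    simp only [WI, Fintype.card_prod, Fintype.card_fin]
    push_cast
    ring
  have c1 : (0:ℝ) < Fintype.card (Sparse n Bool false N) := by exact_mod_cast Fintype.card_pos
  have c2 : (0:ℝ) < Fintype.card (Sparse n (Option (Fin (n + 1))) none K) := by
    exact_mod_cast Fintype.card_pos
  have hlogW : Real.log (Fintype.card (WI n N K)) = Real.log n +
      (Real.log (Fintype.card (Sparse n Bool false N)) +
      (Real.log (Fintype.card (Sparse n Bool false N)) +
        Real.log (Fintype.card (Sparse n (Option (Fin (n + 1))) none K)))) := by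
    rw [hcardW, Real.log_mul hn0.ne' (by positivity), Real.log_mul c1.ne' (by positivity),
      Real.log_mul c1.ne' c2.ne']
  have s1 : Real.log (Fintype.card (Sparse n Bool false N)) ≤ N * Real.log (n / N) + 2 * N := by
    have h := log_card_sparse_le n Bool false N (n / N) (by rw [le_div_iff₀ hN0]; linarith)
    have e : (n:ℝ) * (Fintype.card Bool : ℕ) / (n / N) = 2 * N := by
      rw [Fintype.card_bool]; push_cast; field_simp
    rw [e] at h
    exact h
  have s2 : Real.log (Fintype.card (Sparse n (Option (Fin (n + 1))) none K))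
      ≤ K * (3 * Real.log n) + n / l := by
    have hz : (1:ℝ) ≤ (n + 2) * l := by nlinarith
    have h := log_card_sparse_le n (Option (Fin (n + 1))) none K ((n + 2) * l) hz
    have e : (n:ℝ) * (Fintype.card (Option (Fin (n + 1))) : ℕ) / ((n + 2) * l) = n / l := by
      have : (Fintype.card (Option (Fin (n + 1))) : ℕ) = n + 2 := by simp
      rw [this]; push_cast
      have : (n:ℝ) + 2 ≠ 0 := by positivity
      field_simp
    rw [e] at h
    have h2 : Real.log ((n + 2) * l) ≤ 3 * Real.log n := by
      have h5 : ((n:ℝ) + 2) * l ≤ n ^ 3 := by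
        have h6 : (l:ℝ) ≤ n := by
          have : l ≤ n := Nat.clog_le_of_le_pow (Nat.lt_two_pow_self).le
          exact_mod_cast this
        have h7 : (n:ℝ) + 2 ≤ n ^ 2 := by
          have : (3:ℝ) ≤ n := by exact_mod_cast h3
          nlinarith
        calc ((n:ℝ) + 2) * l ≤ n ^ 2 * n := by gcongr
          _ = n ^ 3 := by ring
      calc Real.log ((n + 2) * l) ≤ Real.log (n ^ 3) := Real.log_le_log (by positivity) h5
        _ = 3 * Real.log n := by rw [Real.log_pow]; norm_num
    have h8 : (K:ℝ) * Real.log ((n + 2) * l) ≤ K * (3 * Real.log n) := by gcongr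
    linarith
  -- K bound
  have hKb : (K:ℝ) * Real.log n ≤ 160 * (N * lam) := by
    have k1 : K * d0 ≤ N := Nat.div_mul_le_self N d0
    have k3 : (K:ℝ) * d0 ≤ N := by exact_mod_cast k1
    have k4 : (l:ℝ) ≤ 160 * lam * d0 := by exact_mod_cast hld
    have hK0 : (0:ℝ) ≤ K := by positivity
    have hlam0 : (0:ℝ) ≤ lam := by positivity
    calc (K:ℝ) * Real.log n ≤ K * l := by gcongr
      _ ≤ K * (160 * lam * d0) := by gcongr
      _ = 160 * lam * (K * d0) := by ring
      _ ≤ 160 * lam * N := by gcongr
      _ = 160 * (N * lam) := by ring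
  have hnl : (n:ℝ) / l ≤ n / Real.log n := by
    gcongr
  have hlogn : Real.log n ≤ n / Real.log n := by
    rw [le_div_iff₀ (by linarith)]; exact hsq
  have h1n : (1:ℝ) ≤ n / Real.log n := hL.trans hlogn
  have hNlam : (N:ℝ) * lam ≤ 5 * (N * Real.log (Real.log n)) := by
    calc (N:ℝ) * lam ≤ N * (5 * Real.log (Real.log n)) := by gcongr
      _ = _ := by ring
  have hNLL : (N:ℝ) ≤ N * Real.log (Real.log n) := by nlinarith
  have hlog0 : 0 ≤ Real.log ((n:ℝ) / N) := Real.log_nonneg (by rw [le_div_iff₀ hN0]; linarith)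
  have hNl0 : 0 ≤ N * Real.log ((n:ℝ) / N) := by positivity
  rw [hlogW]
  rw [mul_add (N:ℝ)]
  nlinarith

theorem log_card_prod (A B : Type) [Fintype A] [Fintype B] [Nonempty A] [Nonempty B] :
    Real.log (Fintype.card (A × B)) = Real.log (Fintype.card A) + Real.log (Fintype.card B) := by
  rw [Fintype.card_prod]
  push_cast
  have h1 : (Fintype.card A : ℝ) ≠ 0 := by
    have := Fintype.card_pos (α := A)
    exact_mod_cast this.ne'
  have h2 : (Fintype.card B : ℝ) ≠ 0 := by
    have := Fintype.card_pos (α := B)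
    exact_mod_cast this.ne'
  exact Real.log_mul h1 h2

/-- The inputs which are accepted: `x ⊔ y` is connected and has a backbone of at most `s` vertices
which is connected in the alternation graph and within alternation distance `Q` of every vertex. -/
def YesB (n s Q : ℕ) (x y : SimpleGraph (Fin n)) : Prop :=
  (x ⊔ y).Connected ∧ ∃ U : Finset (Fin n), U.card ≤ s ∧
    ((altG x y).induce (U : Set (Fin n))).Connected ∧
    ∀ v, ∃ u ∈ U, (altG x y).dist v u ≤ Q

/-- The two parts of a table value. -/
def part1 {a b : ℕ} (β : Fin (a + b) → Bool) : Fin a → Bool := fun i => β (Fin.castAdd b i)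
def part2 {a b : ℕ} (β : Fin (a + b) → Bool) : Fin b → Bool := fun i => β (Fin.natAdd a i)

theorem part1_append {a b : ℕ} (f : Fin a → Bool) (g : Fin b → Bool) :
    part1 (Fin.append f g) = f := by
  funext i; simp [part1]

theorem part2_append {a b : ℕ} (f : Fin a → Bool) (g : Fin b → Bool) :
    part2 (Fin.append f g) = g := by
  funext i; simp [part2]

theorem backbone_cost : ∃ N0 : ℕ, ∀ n : ℕ, N0 ≤ n → ∀ s Q : ℕ, 1 ≤ s → s ≤ n →
    HasMA n (1000000 * (s * (Real.log (n / s) + Real.log (Real.log n)) +
      n * Real.log (Real.log n) ^ 2 *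
      (Real.log (Q + 1) + Real.log (Real.log n)) / Real.log n))
      (YesB n s Q) (fun x y => ¬ (x ⊔ y).Connected) := by
  obtain ⟨N1, hN1⟩ := engine_final
  obtain ⟨N2, hN2⟩ := eventually_atTop.mp (ev_facts.and (ev_numC.and (ev_markCost.and logWI_le)))
  refine ⟨N1 + N2, fun n hn s Q hs hsn => ?_⟩
  obtain ⟨⟨h3, e1, e2, e3, hLL, hL, e4, e5, hsq⟩, ⟨f1, f2, f3⟩, f4, f5⟩ := hN2 n (by omega)
  set l := Nat.clog 2 n with hl
  set lam := Nat.clog 2 l with hlam
  set D := l / (80 * lam) with hD
  obtain ⟨D', hD'⟩ : ∃ D', D = D' + 1 := ⟨D - 1, by omega⟩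
  obtain ⟨code, dec, hdec⟩ := exists_code2 (n := n) (l := l) (Nat.le_pow_clog (by norm_num) n)
    (by omega)
  obtain ⟨code1, dec1, hdec1⟩ := exists_code (n := n) (l := l) (Nat.le_pow_clog (by norm_num) n)
    (by omega)
  set K := 3 * numC n D with hK
  have hl1 : 1 ≤ l := by omega
  -- the number of look-ups is `d0 + 1 = 2 D`
  set d0 := (D' + 1) + D' with hd0
  have hdd : d0 + 1 = (D' + 1) + (D' + 1) := by omega
  have hd : 40 * (lam * (d0 + 1)) ≤ l := by
    have := Nat.div_mul_le_self l (80 * lam)
    rw [← hD, hD'] at this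
    calc 40 * (lam * (d0 + 1)) = (D' + 1) * (80 * lam) := by rw [hdd]; ring
      _ ≤ l := this
  have hld : l ≤ 160 * lam * d0 := by
    have h5 := Nat.div_add_mod l (80 * lam)
    have h6 := Nat.mod_lt l (show 0 < 80 * lam by omega)
    rw [← hD, hD'] at h5
    have hD5 : 5 ≤ D := by
      rw [hD, Nat.le_div_iff_mul_le (by omega)]; omega
    have h7 : 1 ≤ D' := by omega
    have h8 : D' + 2 ≤ 2 * d0 := by omega
    calc l ≤ 80 * lam * (D' + 2) := by nlinarith
      _ ≤ 80 * lam * (2 * d0) := Nat.mul_le_mul_left _ h8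
      _ = 160 * lam * d0 := by ring
  set K1 := s / d0 with hK1
  have hFn : Nonempty (Fin n) := ⟨⟨0, by omega⟩⟩
  have hWne : Nonempty ((Fin n × Sparse n Bool false s) × WI n s K1 ×
      (Fin n × Sparse n (Mark (Fin (Q + 2))) (none, none, none) K)) := by
    infer_instance
  have main := hN1 n (by omega) (l + (l + 1)) (d0 + 1) (by omega) hd
    ((Fin n × Sparse n Bool false s) × WI n s K1 ×
      (Fin n × Sparse n (Mark (Fin (Q + 2))) (none, none, none) K))
    (fun w _ => (univ.filter (fun s => (w.2.2.2.1 s).2.1 ≠ none)).card + 1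
      = (univ.filter (fun s => (w.2.2.2.1 s).1 ≠ none)).card ∧ (w.2.2.2.1 w.2.2.1).1 ≠ none)
    (fun _ _ => True)
    (fun w x u => Fin.append (code1 (rep (XI w.1.2.1 x) w.2.1.2.1.1 u))
      (code (ptr (closG x) u, decide (hasEntry (fun a b : Fin (Q + 2) => a < b) (closG x)
        w.2.2.2.1 u))))
    (fun w y v β => badI dec1 w.2.1 (YI w.1.2.1 w.1.1 y) v (fun k => part1 (β k)) ∨
      badII dec (fun a b : Fin (Q + 2) => a < b) (YII w.1.2.1 y) w.2.2.2.1 w.2.2.1
        (fun k => v (Fin.cast hdd.symm k)) (fun k => part2 (β (Fin.cast hdd.symm k))))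
    (YesB n s Q) (fun x y => ¬ (x ⊔ y).Connected)
    (by
      rintro x y ⟨hG, U, hUs, hUc, hUQ⟩
      obtain ⟨r, hrU⟩ := hUc.nonempty
      set Ub : Fin n → Bool := fun v => decide (v ∈ U) with hUb
      have hr : Ub r = true := by simpa [hUb] using hrU
      have hcardU : (univ.filter (fun v => Ub v = true)).card ≤ s := by
        refine le_trans (le_of_eq ?_) hUs
        congr 1
        ext v
        simp [hUb]
      have hset : {v | Ub v = true} = (U : Set (Fin n)) := by
        ext v
        simp [hUb]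
      have hreach : ∀ u (hu : Ub u = true), ((altG x y).induce {v | Ub v = true}).Reachable
          ⟨r, hr⟩ ⟨u, hu⟩ := by
        intro u hu
        rw! (castMode := .all) [hset]
        exact hUc.preconnected _ _
      have hT1 := test1_connected Ub r x y hr hreach
      have hcomp := (card_comp_YI Ub r y hr).trans hcardU
      have hT2 : (closG x ⊔ YII Ub y).Connected :=
        hG.mono ((le_altG x y).trans (altG_le Ub x y))
      have hdist := test2_dist Ub r x y hr hG Q (by
        intro v
        obtain ⟨u, hu, hd⟩ := hUQ v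
        exact ⟨u, by simpa [hUb] using hu, hd⟩)
      obtain ⟨wI, hwI⟩ := completeI code1 dec1 hdec1 (XI Ub x) (YI Ub r y) hT1 (Or.inr hcomp)
        (show 0 < d0 by omega) (K := K1) le_rfl
      obtain ⟨M0, hM1, hM2⟩ := exists_centres f1 f2 (closG x) (YII Ub y) hT2
      obtain ⟨w, m0, hgood, hcard⟩ := exists_good (fun a b : Fin (Q + 2) => a < b) (closG x)
        (YII Ub y) (fun s => exT (ptr (closG x)) (YII Ub y) s D) hT2 M0 hM1 r (Q + 1) hdist
        (fun k => Fin.ofNat (Q + 2) k) (by
          intro k hk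
          rw [Fin.lt_def]
          simp only [Fin.ofNat_eq_cast, Fin.val_natCast]
          rw [Nat.mod_eq_of_lt (by omega), Nat.mod_eq_of_lt (by omega)]
          omega)
      refine ⟨((r, ⟨Ub, ?_⟩), wI, (m0, ⟨w, ?_⟩)), ⟨?_, ?_⟩, trivial, ?_⟩
      · refine le_trans (le_of_eq ?_) hcardU
        congr 1
        ext v
        simp
      · have h5 := hcard.trans (show 3 * M0.card ≤ K by omega)
        refine le_trans (le_of_eq ?_) h5
        congr 1
        ext v
        simp
      · exact hgood.count
      · exact hgood.root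
      · intro v hbad
        simp only [part1_append, part2_append] at hbad
        rcases hbad with hbad | hbad
        · exact hwI v hbad
        · rw [hD'] at hgood
          exact noBad_of_good code dec hdec _ (closG x) (YII Ub y) w m0 hgood _ hbad)
    (by
      rintro x y hno ⟨⟨r, U⟩, wI, m0, w⟩ ⟨hcount, hroot⟩ _
      by_contra hcon
      push Not at hcon
      apply hno
      simp only [part1_append, part2_append] at hcon
      have hI := soundI code1 dec1 hdec1 wI (XI U.1 x) (YI U.1 r y) (fun v => (hcon v).1)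
      have hgood := good_of_noBad code dec hdec _ (closG x) (YII U.1 y) w.1 m0 hcount hroot (by
        intro v
        have h5 := (hcon (fun k => v (Fin.cast hdd k))).2
        simpa using h5)
      obtain ⟨g1, g2⟩ := hgood.sound
        (fun s => exT_reachable (closG x) (YII U.1 y) (ptr (closG x)) (ptr_reachable (closG x)) s _)
      -- all centres reach the root
      have hcen : ∀ k : ℕ, ∀ m (j : Fin (Q + 2)), (w.1 m).1 = some j → (j : ℕ) ≤ k →
          (closG x ⊔ YII U.1 y).Reachable m m0 := by
        intro k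
        induction k with
        | zero =>
          intro m j hj hj0
          by_cases hm : m = m0
          · rw [hm]
          obtain ⟨m', l', _, _, hlt⟩ := g2 m j hm hj
          rw [Fin.lt_def] at hlt
          omega
        | succ k ih =>
          intro m j hj hj0
          by_cases hm : m = m0
          · rw [hm]
          obtain ⟨m', l', h1, h2, hlt⟩ := g2 m j hm hj
          rw [Fin.lt_def] at hlt
          exact h1.trans (ih m' l' h2 (by omega))
      have hall : ∀ s, (closG x ⊔ YII U.1 y).Reachable s m0 := by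
        intro s
        obtain ⟨m, hm, hsm⟩ := g1 s
        obtain ⟨j, hj⟩ := Option.ne_none_iff_exists'.mp hm
        exact hsm.trans (hcen j m j hj le_rfl)
      have hII : (closG x ⊔ YII U.1 y).Connected := ⟨fun u v => (hall u).trans (hall v).symm⟩
      exact connected_of_tests U.1 r x y hI hII)
  refine main.mono ?_ (fun _ _ h => h) (fun _ _ h => h)
  have hn0 : (0:ℝ) < n := by
    have : 0 < n := by omega
    exact_mod_cast this
  have hs0 : (0:ℝ) < s := by exact_mod_cast hs
  have hsn' : (s:ℝ) ≤ n := by exact_mod_cast hsn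
  have hlogW : Real.log (Fintype.card ((Fin n × Sparse n Bool false s) × WI n s K1 ×
      (Fin n × Sparse n (Mark (Fin (Q + 2))) (none, none, none) K)))
      = (Real.log n + Real.log (Fintype.card (Sparse n Bool false s))) +
        (Real.log (Fintype.card (WI n s K1)) +
        (Real.log n + Real.log (Fintype.card
          (Sparse n (Mark (Fin (Q + 2))) (none, none, none) K)))) := by
    rw [log_card_prod (Fin n × Sparse n Bool false s) (WI n s K1 ×
      (Fin n × Sparse n (Mark (Fin (Q + 2))) (none, none, none) K)),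
      log_card_prod (Fin n) (Sparse n Bool false s),
      log_card_prod (WI n s K1) (Fin n × Sparse n (Mark (Fin (Q + 2))) (none, none, none) K),
      log_card_prod (Fin n) (Sparse n (Mark (Fin (Q + 2))) (none, none, none) K),
      Fintype.card_fin]
  have hm := f4 (Fin (Q + 2)) (Q + 1) (by simp)
  have hwI := f5 s d0 hs hsn (by omega) hld
  have s1 : Real.log (Fintype.card (Sparse n Bool false s)) ≤ s * Real.log (n / s) + 2 * s := by
    have h := log_card_sparse_le n Bool false s (n / s) (by rw [le_div_iff₀ hs0]; linarith)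
    have e : (n:ℝ) * (Fintype.card Bool : ℕ) / (n / s) = 2 * s := by
      rw [Fintype.card_bool]; push_cast; field_simp
    rw [e] at h
    exact h
  rw [hlogW]
  push_cast at hm
  set LL := Real.log (Real.log n) with hLLdef
  set L := Real.log (n:ℝ) with hLdef
  have hl0 : (0:ℝ) < l := by linarith
  have hQ0 : (0:ℝ) ≤ Q := by positivity
  have hq0 : 0 ≤ Real.log ((Q:ℝ) + 1) := Real.log_nonneg (by linarith)
  have hq1 : Real.log ((Q:ℝ) + 1 + 1) ≤ Real.log (Q + 1) + LL := by
    have h1 : ((Q:ℝ) + 1 + 1) ≤ (Q + 1) * 2 := by linarith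
    have h2 := Real.log_le_log (by positivity) h1
    rw [Real.log_mul (by positivity) (by norm_num)] at h2
    have h4 := Real.log_two_lt_d9
    linarith
  set X := (n:ℝ) * LL ^ 2 * (Real.log (Q + 1) + LL) / L with hXdef
  have hX : (n:ℝ) / L ≤ X := by
    rw [hXdef]
    gcongr
    have h1 : (1:ℝ) ≤ LL ^ 2 := by nlinarith
    have h2 : (1:ℝ) ≤ Real.log (Q + 1) + LL := by linarith
    calc (n:ℝ) = n * 1 * 1 := by ring
      _ ≤ n * LL ^ 2 * (Real.log (Q + 1) + LL) := by gcongr
  have hnl : (n:ℝ) / l ≤ n / L := by gcongr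
  have hLn : L ≤ n / L := by rw [le_div_iff₀ (by linarith)]; exact hsq
  have hm2 : (n:ℝ) * LL ^ 2 * (Real.log ((Q:ℝ) + 1 + 1) + LL) / L ≤ 2 * X := by
    have h1 : Real.log ((Q:ℝ) + 1 + 1) + LL ≤ 2 * (Real.log (Q + 1) + LL) := by linarith
    calc (n:ℝ) * LL ^ 2 * (Real.log ((Q:ℝ) + 1 + 1) + LL) / L
        ≤ n * LL ^ 2 * (2 * (Real.log (Q + 1) + LL)) / L := by gcongr
      _ = 2 * X := by rw [hXdef]; ring
  have hlog0 : 0 ≤ Real.log ((n:ℝ) / s) := Real.log_nonneg (by rw [le_div_iff₀ hs0]; linarith)
  have hsl0 : 0 ≤ s * Real.log ((n:ℝ) / s) := by positivity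
  have hsLL : (s:ℝ) ≤ s * LL := by nlinarith
  rw [mul_add (s:ℝ)] at hwI ⊢
  have h1n : (1:ℝ) ≤ n / L := hL.trans hLn
  linarith

end Helper52_MA
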