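import Pool.Agent.Helper52_MA.Graphs

set_option autoImplicit false

namespace Helper52_MA

open Finset Classical Helper42_MA

theorem altG_comm {n : ℕ} (x y : SimpleGraph (Fin n)) : altG x y = altG y x := by
  ext u v
  simp only [altG]
  tauto

/-- If the union is connected and `x` has at most `N` components, then there is a backbone of at
most `2 N` vertices within alternation distance `1` of every vertex. -/
theorem backbone_of_few {n N : ℕ} (x y : SimpleGraph (Fin n)) (hG : (x ⊔ y).Connected)
    (hN : Nat.card x.ConnectedComponent ≤ N) :
    ∃ U : Finset (Fin n), U.card ≤ 2 * N ∧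
      ((altG x y).induce (U : Set (Fin n))).Connected ∧
      ∀ v, ∃ u ∈ U, (altG x y).dist v u ≤ 1 := by
  obtain ⟨v0⟩ := hG.nonempty
  -- the components met by `U`
  let met : Finset (Fin n) → Finset x.ConnectedComponent := fun U =>
    U.image (fun u => x.connectedComponentMk u)
  have key : ∀ k : ℕ, k + 1 ≤ Fintype.card x.ConnectedComponent → ∃ U : Finset (Fin n),
      ((altG x y).induce (U : Set (Fin n))).Connected ∧ k + 1 ≤ (met U).card ∧
      U.card ≤ 2 * k + 1 := by
    intro k
    induction k with
    | zero =>
      intro _
      refine ⟨{v0}, ?_, ?_, by simp⟩
      · have h1 := (SimpleGraph.Walk.nil : (altG x y).Walk v0 v0).connected_induce_support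
        have h2 : {v | v ∈ (SimpleGraph.Walk.nil : (altG x y).Walk v0 v0).support}
            = (({v0} : Finset (Fin n)) : Set (Fin n)) := by
          ext v; simp
        rw [← h2]
        exact h1
      · simp [met]
    | succ k ih =>
      intro hk
      obtain ⟨U, hUc, hUm, hUcard⟩ := ih (by omega)
      by_cases hfull : k + 2 ≤ (met U).card
      · exact ⟨U, hUc, hfull, by omega⟩
      obtain ⟨c, hc⟩ : ∃ c, c ∉ met U := by
        by_contra hcon
        push Not at hcon
        have : met U = univ := Finset.eq_univ_of_forall hcon
        rw [this, Finset.card_univ] at hfull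
        omega
      obtain ⟨w, rfl⟩ : ∃ w, x.connectedComponentMk w = c := by
        induction c using SimpleGraph.ConnectedComponent.ind with | _ v => ?_
        exact ⟨v, rfl⟩
      obtain ⟨u0, hu0⟩ : U.Nonempty := by
        by_contra hcon
        rw [Finset.not_nonempty_iff_eq_empty] at hcon
        rw [hcon] at hUm
        simp [met] at hUm
      have hcross : ∀ a b, (x ⊔ y).Walk a b → x.connectedComponentMk a ∈ met U →
          x.connectedComponentMk b ∉ met U → ∃ a' b', x.connectedComponentMk a' ∈ met U ∧
            x.connectedComponentMk b' ∉ met U ∧ y.Adj a' b' := by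
        intro a b p
        induction p with
        | nil => intro h1 h2; exact absurd h1 h2
        | @cons a c b hadj p ihp =>
          intro h1 h2
          by_cases hc : x.connectedComponentMk c ∈ met U
          · exact ihp hc h2
          · rw [SimpleGraph.sup_adj] at hadj
            rcases hadj with h | h
            · exfalso
              apply hc
              rw [← SimpleGraph.ConnectedComponent.eq.mpr h.reachable]
              exact h1
            · exact ⟨a, c, h1, hc, h⟩
      obtain ⟨p⟩ := hG.preconnected u0 w
      obtain ⟨a, b, ha, hb, hab⟩ := hcross u0 w p (Finset.mem_image_of_mem _ hu0) hc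
      obtain ⟨u, hu, hua⟩ := Finset.mem_image.mp ha
      have hua' : x.Reachable u a := SimpleGraph.ConnectedComponent.eq.mp hua
      have hUa : ((altG x y).induce ((U : Set (Fin n)) ∪ {u, a})).Connected := by
        by_cases hne : u = a
        · subst hne
          have : (U : Set (Fin n)) ∪ {u, u} = U := by
            ext z
            simp only [Set.mem_union, Finset.mem_coe, Set.mem_insert_iff, Set.mem_singleton_iff,
              or_self]
            constructor
            · rintro (h | rfl)
              · exact h
              · exact hu
            · intro h; exact Or.inl h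
          rw [this]
          exact hUc
        · have hadj : (altG x y).Adj u a := ⟨hne, Or.inl hua'⟩
          exact SimpleGraph.induce_union_connected hUc.preconnected
            (SimpleGraph.induce_pair_connected_of_adj hadj).preconnected
            ⟨u, hu, by simp⟩
      have hadj2 : (altG x y).Adj a b := ⟨hab.ne, Or.inr hab.reachable⟩
      have hUab : ((altG x y).induce (((U : Set (Fin n)) ∪ {u, a}) ∪ {a, b})).Connected :=
        SimpleGraph.induce_union_connected hUa.preconnected
          (SimpleGraph.induce_pair_connected_of_adj hadj2).preconnected
          ⟨a, by simp, by simp⟩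
      refine ⟨insert b (insert a U), ?_, ?_, ?_⟩
      · have e : ((U : Set (Fin n)) ∪ {u, a}) ∪ {a, b}
            = ((insert b (insert a U) : Finset (Fin n)) : Set (Fin n)) := by
          ext z
          simp only [Set.mem_union, Finset.mem_coe, Set.mem_insert_iff, Set.mem_singleton_iff,
            Finset.coe_insert]
          constructor
          · rintro ((h | rfl | rfl) | rfl | rfl)
            · exact Or.inr (Or.inr h)
            · exact Or.inr (Or.inr hu)
            · exact Or.inr (Or.inl rfl)
            · exact Or.inr (Or.inl rfl)
            · exact Or.inl rfl
          · rintro (rfl | rfl | h)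
            · exact Or.inr (Or.inr rfl)
            · exact Or.inr (Or.inl rfl)
            · exact Or.inl (Or.inl h)
        rw [← e]
        exact hUab
      · have hsub : insert (x.connectedComponentMk b) (met U) ⊆ met (insert b (insert a U)) := by
          intro z hz
          rw [Finset.mem_insert] at hz
          rcases hz with rfl | hz
          · exact Finset.mem_image_of_mem _ (Finset.mem_insert_self _ _)
          · obtain ⟨z', hz', rfl⟩ := Finset.mem_image.mp hz
            exact Finset.mem_image_of_mem _
              (Finset.mem_insert_of_mem (Finset.mem_insert_of_mem hz'))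
        have h1 := Finset.card_le_card hsub
        rw [Finset.card_insert_of_notMem hb] at h1
        omega
      · have h1 := Finset.card_insert_le b (insert a U)
        have h2 := Finset.card_insert_le a U
        omega
  have hpos : 0 < Fintype.card x.ConnectedComponent :=
    Fintype.card_pos_iff.mpr ⟨x.connectedComponentMk v0⟩
  rw [Nat.card_eq_fintype_card] at hN
  obtain ⟨U, hUc, hUm, hUcard⟩ := key (Fintype.card x.ConnectedComponent - 1) (by omega)
  refine ⟨U, by omega, hUc, fun v => ?_⟩
  have hall : met U = univ := by
    apply Finset.eq_univ_of_card
    apply le_antisymm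
    · exact Finset.card_le_univ _
    · omega
  have hv : x.connectedComponentMk v ∈ met U := by rw [hall]; exact Finset.mem_univ _
  obtain ⟨u, hu, huv⟩ := Finset.mem_image.mp hv
  have huv' : x.Reachable u v := SimpleGraph.ConnectedComponent.eq.mp huv
  refine ⟨u, hu, ?_⟩
  by_cases hne : v = u
  · rw [hne, SimpleGraph.dist_self]; omega
  · have hadj : (altG x y).Adj v u := ⟨hne, Or.inl huv'.symm⟩
    exact (SimpleGraph.dist_eq_one_iff_adj.mpr hadj).le

end Helper52_MA
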