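import Mathlib

set_option autoImplicit false

namespace Helper52_MA

open Finset Classical

/-- A connected graph all of whose balls of radius `R` have at least `B` vertices has a connected
set of at most `(4 R + 1) n / B` vertices within distance `2 R` of every vertex. -/
theorem exists_backbone {n : ℕ} (G : SimpleGraph (Fin n)) (hG : G.Connected) (R B : ℕ)
    (hB : ∀ v, B ≤ (univ.filter (fun w => G.dist v w ≤ R)).card) :
    ∃ U : Finset (Fin n), U.card * B ≤ (4 * R + 1) * n ∧
      (G.induce (U : Set (Fin n))).Connected ∧ ∀ v, ∃ u ∈ U, G.dist v u ≤ 2 * R := by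
  -- a maximal separated set
  obtain ⟨S, hS, hmax⟩ := Finset.exists_max_image
    ((univ : Finset (Finset (Fin n))).filter
      (fun S => ∀ a ∈ S, ∀ b ∈ S, a ≠ b → 2 * R < G.dist a b)) Finset.card
    ⟨∅, by simp⟩
  rw [Finset.mem_filter] at hS
  have hsep := hS.2
  have hcov : ∀ v, ∃ s ∈ S, G.dist v s ≤ 2 * R := by
    intro v
    by_contra hcon
    push Not at hcon
    have hv : v ∉ S := by
      intro hv
      have := hcon v hv
      rw [SimpleGraph.dist_self] at this
      omega
    have h1 := hmax (insert v S) (by
      rw [Finset.mem_filter]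
      refine ⟨Finset.mem_univ _, ?_⟩
      intro a ha b hb hab
      rw [Finset.mem_insert] at ha hb
      rcases ha with rfl | ha <;> rcases hb with rfl | hb
      · exact absurd rfl hab
      · exact hcon b hb
      · rw [SimpleGraph.dist_comm]; exact hcon a ha
      · exact hsep a ha b hb hab)
    rw [Finset.card_insert_of_notMem hv] at h1
    omega
  obtain ⟨v0⟩ := hG.nonempty
  obtain ⟨s0, hs0, _⟩ := hcov v0
  -- disjoint balls
  have hSB : S.card * B ≤ n := by
    have hdisj : ∀ a ∈ S, ∀ b ∈ S, a ≠ b → Disjoint (univ.filter (fun w => G.dist a w ≤ R))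
        (univ.filter (fun w => G.dist b w ≤ R)) := by
      intro a ha b hb hab
      rw [Finset.disjoint_left]
      intro w hw hw'
      rw [Finset.mem_filter] at hw hw'
      have h1 := hG.dist_triangle (u := a) (v := w) (w := b)
      have h2 := hsep a ha b hb hab
      have h3 : G.dist w b = G.dist b w := SimpleGraph.dist_comm
      omega
    have h1 := Finset.card_biUnion hdisj
    calc S.card * B = ∑ _s ∈ S, B := by simp
      _ ≤ ∑ s ∈ S, (univ.filter (fun w => G.dist s w ≤ R)).card :=
          Finset.sum_le_sum fun s _ => hB s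
      _ = (S.biUnion (fun s => univ.filter (fun w => G.dist s w ≤ R))).card := h1.symm
      _ ≤ (univ : Finset (Fin n)).card := Finset.card_le_card (Finset.subset_univ _)
      _ = n := by simp
  -- growing the connected set
  have key : ∀ k, k + 1 ≤ S.card → ∃ U : Finset (Fin n),
      (G.induce (U : Set (Fin n))).Connected ∧ k + 1 ≤ (U ∩ S).card ∧
      U.card ≤ 1 + k * (4 * R + 1) := by
    intro k
    induction k with
    | zero =>
      intro _
      refine ⟨{s0}, ?_, ?_, by simp⟩
      · have h1 := (SimpleGraph.Walk.nil : G.Walk s0 s0).connected_induce_support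
        have h2 : {v | v ∈ (SimpleGraph.Walk.nil : G.Walk s0 s0).support}
            = (({s0} : Finset (Fin n)) : Set (Fin n)) := by
          ext v; simp
        rw [← h2]
        exact h1
      · have : s0 ∈ ({s0} : Finset (Fin n)) ∩ S := by simp [hs0]
        exact Finset.card_pos.mpr ⟨s0, this⟩
    | succ k ih =>
      intro hk
      obtain ⟨U, hUc, hUS, hUcard⟩ := ih (by omega)
      by_cases hfull : k + 2 ≤ (U ∩ S).card
      · exact ⟨U, hUc, hfull, hUcard.trans (by nlinarith)⟩
      -- a vertex of `S` outside `U`
      obtain ⟨s1, hs1, hs1U⟩ : ∃ s1 ∈ S, s1 ∉ U := by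
        by_contra hcon
        push Not at hcon
        have : U ∩ S = S := Finset.inter_eq_right.mpr hcon
        rw [this] at hfull
        omega
      obtain ⟨a0, ha0⟩ : (U ∩ S).Nonempty := Finset.card_pos.mp (by omega)
      rw [Finset.mem_inter] at ha0
      have hcross : ∀ a b, G.Walk a b → (∃ s ∈ U ∩ S, G.dist a s ≤ 2 * R) →
          ¬ (∃ s ∈ U ∩ S, G.dist b s ≤ 2 * R) → ∃ s ∈ U ∩ S, ∃ s' ∈ S, s' ∉ U ∧
            G.dist s s' ≤ 4 * R + 1 := by
        intro a b p
        induction p with
        | nil => intro h1 h2; exact absurd h1 h2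
        | @cons a c b hadj p ihp =>
          intro h1 h2
          by_cases hc : ∃ s ∈ U ∩ S, G.dist c s ≤ 2 * R
          · exact ihp hc h2
          · obtain ⟨s, hs, hds⟩ := h1
            obtain ⟨s', hs', hds'⟩ := hcov c
            refine ⟨s, hs, s', hs', ?_, ?_⟩
            · intro h
              exact hc ⟨s', Finset.mem_inter.mpr ⟨h, hs'⟩, hds'⟩
            · have h3 := hG.dist_triangle (u := s) (v := a) (w := s')
              have h4 := hG.dist_triangle (u := a) (v := c) (w := s')
              have h5 : G.dist a c = 1 := SimpleGraph.dist_eq_one_iff_adj.mpr hadj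
              have h6 : G.dist s a = G.dist a s := SimpleGraph.dist_comm
              omega
      obtain ⟨p⟩ := hG.preconnected a0 s1
      obtain ⟨s, hs, s', hs', hs'U, hd⟩ := hcross a0 s1 p
        ⟨a0, Finset.mem_inter.mpr ha0, by rw [SimpleGraph.dist_self]; omega⟩ (by
          rintro ⟨s, hs, hds⟩
          rw [Finset.mem_inter] at hs
          have hne : s1 ≠ s := fun h => hs1U (h ▸ hs.1)
          have := hsep s1 hs1 s hs.2 hne
          omega)
      rw [Finset.mem_inter] at hs
      obtain ⟨q, hq⟩ := hG.exists_walk_length_eq_dist s s'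
      refine ⟨U ∪ q.support.toFinset, ?_, ?_, ?_⟩
      · have h1 := q.connected_induce_support
        have h2 : {v | v ∈ q.support} = ((q.support.toFinset : Finset (Fin n)) : Set (Fin n)) := by
          ext v; simp
        rw [h2] at h1
        rw [Finset.coe_union]
        apply SimpleGraph.induce_union_connected hUc.preconnected h1.preconnected
        refine ⟨s, hs.1, ?_⟩
        rw [Finset.mem_coe, List.mem_toFinset]
        exact q.start_mem_support
      · have hsub : insert s' (U ∩ S) ⊆ (U ∪ q.support.toFinset) ∩ S := by
          intro z hz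
          rw [Finset.mem_insert, Finset.mem_inter] at hz
          rw [Finset.mem_inter, Finset.mem_union, List.mem_toFinset]
          rcases hz with rfl | hz
          · exact ⟨Or.inr q.end_mem_support, hs'⟩
          · exact ⟨Or.inl hz.1, hz.2⟩
        have h1 := Finset.card_le_card hsub
        rw [Finset.card_insert_of_notMem (by
          rw [Finset.mem_inter]; exact fun h => hs'U h.1)] at h1
        omega
      · have hsub : U ∪ q.support.toFinset ⊆ U ∪ (q.support.toFinset.erase s) := by
          intro z hz
          rw [Finset.mem_union] at hz ⊢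
          rcases hz with hz | hz
          · exact Or.inl hz
          · by_cases hzs : z = s
            · rw [hzs]; exact Or.inl hs.1
            · exact Or.inr (Finset.mem_erase.mpr ⟨hzs, hz⟩)
        have h1 := (Finset.card_le_card hsub).trans (Finset.card_union_le _ _)
        have h2 : (q.support.toFinset.erase s).card ≤ 4 * R + 1 := by
          rw [Finset.card_erase_of_mem (List.mem_toFinset.mpr q.start_mem_support)]
          have h3 := List.toFinset_card_le q.support
          rw [SimpleGraph.Walk.length_support] at h3
          omega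
        calc (U ∪ q.support.toFinset).card ≤ U.card + (q.support.toFinset.erase s).card := h1
          _ ≤ (1 + k * (4 * R + 1)) + (4 * R + 1) := add_le_add hUcard h2
          _ = 1 + (k + 1) * (4 * R + 1) := by ring
  have hSpos : 0 < S.card := Finset.card_pos.mpr ⟨s0, hs0⟩
  obtain ⟨U, hUc, hUS, hUcard⟩ := key (S.card - 1) (by omega)
  have hSU : S ⊆ U := by
    have h1 : (U ∩ S).card = S.card :=
      le_antisymm (Finset.card_le_card Finset.inter_subset_right) (by omega)
    have h2 : U ∩ S = S := Finset.eq_of_subset_of_card_le Finset.inter_subset_right h1.ge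
    exact Finset.inter_eq_right.mp h2
  refine ⟨U, ?_, hUc, ?_⟩
  · have h1 : U.card ≤ S.card * (4 * R + 1) := by
      obtain ⟨m, hm⟩ : ∃ m, S.card = m + 1 := ⟨S.card - 1, by omega⟩
      rw [hm] at hUcard ⊢
      rw [Nat.add_sub_cancel] at hUcard
      nlinarith
    calc U.card * B ≤ S.card * (4 * R + 1) * B := Nat.mul_le_mul_right _ h1
      _ = (4 * R + 1) * (S.card * B) := by ring
      _ ≤ (4 * R + 1) * n := Nat.mul_le_mul_left _ hSB
  · intro v
    obtain ⟨s, hs, hds⟩ := hcov v
    exact ⟨s, hSU hs, hds⟩

end Helper52_MA
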