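import Pool.Agent.Helper52_MA.Backbone
import Pool.Agent.Helper52_MA.Growth

set_option autoImplicit false

namespace Helper52_MA

open Finset Classical Filter Helper42_MA

theorem ev_slog : ∀ᶠ n : ℕ in atTop, ∀ s : ℕ, 1 ≤ s → s ≤ n →
    s * Real.log ((n:ℝ) / s) ≤ s * Real.log (Real.log n) +
      n * Real.log (Real.log n) / Real.log n := by
  filter_upwards [tendsto_loglogn.eventually_ge_atTop 1, tendsto_logn.eventually_ge_atTop 1,
    eventually_ge_atTop 1] with n hLL hL hn1 s hs hsn
  have hs0 : (0:ℝ) < s := by exact_mod_cast hs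
  have hn0 : (0:ℝ) < n := by exact_mod_cast hn1
  have hsn' : (s:ℝ) ≤ n := by exact_mod_cast hsn
  set L := Real.log (n:ℝ) with hLdef
  set LL := Real.log L with hLLdef
  have hL0 : 0 < L := by linarith
  by_cases h : (n:ℝ) / s ≤ L
  · have h1 : Real.log ((n:ℝ) / s) ≤ LL := Real.log_le_log (by positivity) h
    have h2 : (0:ℝ) ≤ n * LL / L := by positivity
    nlinarith
  · push Not at h
    have hexp : Real.exp 1 ≤ L := by
      rw [← Real.exp_log hL0]
      exact Real.exp_le_exp.mpr hLL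
    have h1 : Real.log ((n:ℝ) / s) / ((n:ℝ) / s) ≤ Real.log L / L :=
      Real.log_div_self_antitoneOn hexp (hexp.trans h.le) h.le
    have h2 : s * Real.log ((n:ℝ) / s) = n * (Real.log ((n:ℝ) / s) / ((n:ℝ) / s)) := by
      field_simp
    have h3 : (0:ℝ) ≤ s * LL := by positivity
    rw [h2]
    calc n * (Real.log ((n:ℝ) / s) / ((n:ℝ) / s)) ≤ n * (Real.log L / L) := by gcongr
      _ = n * LL / L := by ring
      _ ≤ _ := by linarith

/-- The accepted inputs. -/
def YesF (n s Q : ℕ) (x y : SimpleGraph (Fin n)) : Prop :=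
  (x ⊔ y).Connected ∧
    ((Nat.card x.ConnectedComponent ≤ s ∨ Nat.card y.ConnectedComponent ≤ s) ∨
    (∃ U : Finset (Fin n), U.card ≤ s ∧
      ((altG x y).induce (U : Set (Fin n))).Connected ∧
      ∀ v, ∃ u ∈ U, (altG x y).dist v u ≤ Q) ∨
    (∃ R B : ℕ, 2 * R ≤ Q ∧ 1 ≤ B ∧ (4 * R + 1) * n ≤ s * B ∧
      ∀ v, B ≤ (univ.filter (fun w => (altG x y).dist v w ≤ R)).card))

theorem final_cost : ∃ N0 : ℕ, ∀ n : ℕ, N0 ≤ n → ∀ s Q : ℕ, 1 ≤ s →
    HasMA n (3000000 * (s * Real.log (Real.log n) + n * Real.log (Real.log n) ^ 2 *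
      (Real.log (Q + 1) + Real.log (Real.log n)) / Real.log n))
      (YesF n s Q) (fun x y => ¬ (x ⊔ y).Connected) := by
  obtain ⟨N1, h1⟩ := backbone_cost
  obtain ⟨N2, h2⟩ := typeI_cost
  obtain ⟨N3, h3⟩ := eventually_atTop.mp (ev_facts.and ev_slog)
  refine ⟨N1 + N2 + N3, fun n hn s' Q hs' => ?_⟩
  obtain ⟨⟨g3, e1, e2, e3, hLL, hL, e4, e5, hsq⟩, hslog⟩ := h3 n (by omega)
  set s := min s' n with hs
  have hs1 : 1 ≤ s := by omega
  have hsn : s ≤ n := min_le_right _ _
  have hss : s ≤ s' := min_le_left _ _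
  have hU := (h1 n (by omega) s Q hs1 hsn).union (h2 n (by omega) s hs1 hsn)
  refine hU.mono ?_ ?_ (fun _ _ h => h)
  · have hn0 : (0:ℝ) < n := by
      have : 0 < n := by omega
      exact_mod_cast this
    have hs0 : (0:ℝ) < s := by exact_mod_cast hs1
    have hsl := hslog s hs1 hsn
    have hss' : (s:ℝ) ≤ s' := by exact_mod_cast hss
    set LL := Real.log (Real.log n) with hLLdef
    set L := Real.log (n:ℝ) with hLdef
    have hq0 : 0 ≤ Real.log ((Q:ℝ) + 1) := by
      apply Real.log_nonneg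
      have : (0:ℝ) ≤ Q := by positivity
      linarith
    set X := (n:ℝ) * LL ^ 2 * (Real.log (Q + 1) + LL) / L with hXdef
    have hX1 : (n:ℝ) * LL / L ≤ X := by
      rw [hXdef]
      apply div_le_div_of_nonneg_right _ (by linarith)
      have h1 : (1:ℝ) ≤ LL := hLL
      have h2 : (1:ℝ) ≤ Real.log (Q + 1) + LL := by linarith
      calc (n:ℝ) * LL = n * LL * 1 := by ring
        _ ≤ n * LL * (LL * (Real.log (Q + 1) + LL)) := by
            gcongr
            nlinarith
        _ = n * LL ^ 2 * (Real.log (Q + 1) + LL) := by ring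
    have hX2 : (n:ℝ) / L ≤ X := by
      refine le_trans ?_ hX1
      gcongr
      nlinarith
    have hLn : L ≤ n / L := by rw [le_div_iff₀ (by linarith)]; exact hsq
    have h1n : (1:ℝ) ≤ n / L := hL.trans hLn
    have hsLL : (s:ℝ) * LL ≤ s' * LL := by gcongr
    have hsLL0 : (0:ℝ) ≤ s * LL := by positivity
    rw [mul_add (s:ℝ)]
    linarith
  · rintro x y ⟨hG, hcase⟩
    have hcardU : ∀ U : Finset (Fin n), U.card ≤ s' → U.card ≤ s := by
      intro U hU
      have : U.card ≤ n := by simpa using Finset.card_le_univ U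
      omega
    have hcomp : ∀ z : SimpleGraph (Fin n), Nat.card z.ConnectedComponent ≤ s' →
        Fintype.card z.ConnectedComponent ≤ s := by
      intro z hz
      rw [Nat.card_eq_fintype_card] at hz
      have : Fintype.card z.ConnectedComponent ≤ n := by
        have := Fintype.card_le_of_surjective (fun v : Fin n => z.connectedComponentMk v)
          (fun c => by
            induction c using SimpleGraph.ConnectedComponent.ind with | _ v => ?_
            exact ⟨v, rfl⟩)
        simpa using this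
      omega
    rcases hcase with (hc | hc) | hB | hC
    · exact Or.inr ⟨hG, Or.inl (hcomp x hc)⟩
    · exact Or.inr ⟨hG, Or.inr (hcomp y hc)⟩
    · obtain ⟨U, hUs, hUc, hUQ⟩ := hB
      exact Or.inl ⟨hG, U, hcardU U hUs, hUc, hUQ⟩
    · obtain ⟨R, B, hRQ, hB1, hRB, hball⟩ := hC
      have hA : (altG x y).Connected := hG.mono (le_altG x y)
      obtain ⟨U, hU1, hU2, hU3⟩ := exists_backbone (altG x y) hA R B hball
      refine Or.inl ⟨hG, U, hcardU U ?_, hU2, ?_⟩
      · exact Nat.le_of_mul_le_mul_right (hU1.trans hRB) hB1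
      · intro v
        obtain ⟨u, hu, hd⟩ := hU3 v
        exact ⟨u, hu, hd.trans hRQ⟩

end Helper52_MA
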