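import Pool.Agent.Helper42_MA.Alt

set_option autoImplicit false

namespace Helper52_MA

open Finset Classical Helper42_MA

section
variable {n : ℕ}

/-- Alice's graph on the backbone `U`: the trace of her components. -/
def XI (U : Fin n → Bool) (x : SimpleGraph (Fin n)) : SimpleGraph (Fin n) where
  Adj u v := u ≠ v ∧ U u = true ∧ U v = true ∧ x.Reachable u v
  symm := ⟨fun _ _ h => ⟨h.1.symm, h.2.2.1, h.2.1, h.2.2.2.symm⟩⟩
  loopless := ⟨fun _ h => h.1 rfl⟩

/-- Bob's graph on the backbone `U`; everything outside `U` is tied to `r`. -/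
def YI (U : Fin n → Bool) (r : Fin n) (y : SimpleGraph (Fin n)) : SimpleGraph (Fin n) where
  Adj u v := u ≠ v ∧ ((U u = true ∧ U v = true ∧ y.Reachable u v) ∨
    (U u = false ∧ v = r) ∨ (U v = false ∧ u = r))
  symm := ⟨fun _ _ h => ⟨h.1.symm, by
    rcases h.2 with h | h | h
    · exact Or.inl ⟨h.2.1, h.1, h.2.2.symm⟩
    · exact Or.inr (Or.inr h)
    · exact Or.inr (Or.inl h)⟩⟩
  loopless := ⟨fun _ h => h.1 rfl⟩

/-- Bob's closed graph with a clique on `U`. -/
def YII (U : Fin n → Bool) (y : SimpleGraph (Fin n)) : SimpleGraph (Fin n) where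
  Adj u v := u ≠ v ∧ (y.Reachable u v ∨ (U u = true ∧ U v = true))
  symm := ⟨fun _ _ h => ⟨h.1.symm, by
    rcases h.2 with h | h
    · exact Or.inl h.symm
    · exact Or.inr ⟨h.2, h.1⟩⟩⟩
  loopless := ⟨fun _ h => h.1 rfl⟩

/-- The alternation graph. -/
def altG (x y : SimpleGraph (Fin n)) : SimpleGraph (Fin n) where
  Adj u v := u ≠ v ∧ (x.Reachable u v ∨ y.Reachable u v)
  symm := ⟨fun _ _ h => ⟨h.1.symm, h.2.imp (fun h => h.symm) (fun h => h.symm)⟩⟩
  loopless := ⟨fun _ h => h.1 rfl⟩

/-- Soundness of the first test: the backbone lies in one component. -/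
theorem backbone_of_connected (U : Fin n → Bool) (r : Fin n) (x y : SimpleGraph (Fin n))
    (h : (XI U x ⊔ YI U r y).Connected) {u v : Fin n} (hu : U u = true) (hv : U v = true) :
    (x ⊔ y).Reachable u v := by
  set φ : Fin n → Fin n := fun w => if U w = true then w else r with hφ
  have key : ∀ a b, (XI U x ⊔ YI U r y).Walk a b → (x ⊔ y).Reachable (φ a) (φ b) := by
    intro a b p
    induction p with
    | nil => exact SimpleGraph.Reachable.refl _
    | @cons a c b hadj p ih =>
      refine SimpleGraph.Reachable.trans ?_ ih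
      rw [SimpleGraph.sup_adj] at hadj
      rcases hadj with h | h
      · obtain ⟨_, h1, h2, h3⟩ := h
        simp only [hφ, if_pos h1, if_pos h2]
        exact h3.mono le_sup_left
      · obtain ⟨_, h | h | h⟩ := h
        · obtain ⟨h1, h2, h3⟩ := h
          simp only [hφ, if_pos h1, if_pos h2]
          exact h3.mono le_sup_right
        · obtain ⟨h1, rfl⟩ := h
          have h4 : ¬ U a = true := by rw [h1]; simp
          simp only [hφ, if_neg h4]
          split_ifs <;> exact SimpleGraph.Reachable.refl _
        · obtain ⟨h1, rfl⟩ := h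
          have h4 : ¬ U c = true := by rw [h1]; simp
          simp only [hφ, if_neg h4]
          split_ifs <;> exact SimpleGraph.Reachable.refl _
  obtain ⟨p⟩ := h.preconnected u v
  have := key u v p
  simpa only [hφ, if_pos hu, if_pos hv] using this

/-- Soundness of the two tests together. -/
theorem connected_of_tests (U : Fin n → Bool) (r : Fin n) (x y : SimpleGraph (Fin n))
    (h1 : (XI U x ⊔ YI U r y).Connected) (h2 : (closG x ⊔ YII U y).Connected) :
    (x ⊔ y).Connected := by
  have key : ∀ a b, (closG x ⊔ YII U y).Walk a b → (x ⊔ y).Reachable a b := by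
    intro a b p
    induction p with
    | nil => exact SimpleGraph.Reachable.refl _
    | @cons a c b hadj p ih =>
      refine SimpleGraph.Reachable.trans ?_ ih
      rw [SimpleGraph.sup_adj] at hadj
      rcases hadj with h | h
      · exact h.2.mono le_sup_left
      · rcases h.2 with h | h
        · exact h.mono le_sup_right
        · exact backbone_of_connected U r x y h1 h.1 h.2
  have := h2.nonempty
  exact ⟨fun u v => by
    obtain ⟨p⟩ := h2.preconnected u v
    exact key u v p⟩

/-- Completeness of the first test. -/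
theorem test1_connected (U : Fin n → Bool) (r : Fin n) (x y : SimpleGraph (Fin n)) (hr : U r = true)
    (hU : ∀ u (hu : U u = true), ((altG x y).induce {v | U v = true}).Reachable ⟨r, hr⟩
      ⟨u, hu⟩) : (XI U x ⊔ YI U r y).Connected := by
  have h1 : ∀ u, U u = true → (XI U x ⊔ YI U r y).Reachable r u := by
    intro u hu
    have h2 := hU u hu
    let f : ((altG x y).induce {v | U v = true}) →g (XI U x ⊔ YI U r y) :=
      { toFun := fun v => v.1
        map_rel' := by
          rintro ⟨a, ha⟩ ⟨b, hb⟩ hab
          have hab' : (altG x y).Adj a b := hab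
          obtain ⟨hne, h⟩ := hab'
          rw [SimpleGraph.sup_adj]
          rcases h with h | h
          · exact Or.inl ⟨hne, ha, hb, h⟩
          · exact Or.inr ⟨hne, Or.inl ⟨ha, hb, h⟩⟩ }
    exact h2.map f
  have h3 : ∀ u, (XI U x ⊔ YI U r y).Reachable r u := by
    intro u
    by_cases hu : U u = true
    · exact h1 u hu
    · have hu' : U u = false := by simpa using hu
      have hne : u ≠ r := by
        intro h; rw [h] at hu; exact hu hr
      have : (YI U r y).Adj u r := ⟨hne, Or.inr (Or.inl ⟨hu', rfl⟩)⟩
      exact (this.reachable.mono le_sup_right).symm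
  have : Nonempty (Fin n) := ⟨r⟩
  exact ⟨fun u v => (h3 u).symm.trans (h3 v)⟩

/-- Bob's first graph has at most `|U|` components. -/
theorem card_comp_YI (U : Fin n → Bool) (r : Fin n) (y : SimpleGraph (Fin n)) (hr : U r = true) :
    Fintype.card (YI U r y).ConnectedComponent ≤ (univ.filter (fun v => U v = true)).card := by
  have hsub : (univ : Finset (YI U r y).ConnectedComponent) ⊆
      (univ.filter (fun v => U v = true)).image (fun v => (YI U r y).connectedComponentMk v) := by
    intro c _
    induction c using SimpleGraph.ConnectedComponent.ind with | _ v => ?_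
    rw [Finset.mem_image]
    by_cases hv : U v = true
    · exact ⟨v, by simp [hv], rfl⟩
    · refine ⟨r, by simp [hr], ?_⟩
      have hv' : U v = false := by simpa using hv
      have hne : v ≠ r := by
        intro h; rw [h] at hv; exact hv hr
      have : (YI U r y).Adj v r := ⟨hne, Or.inr (Or.inl ⟨hv', rfl⟩)⟩
      exact (SimpleGraph.ConnectedComponent.eq.mpr this.reachable.symm)
  rw [← Finset.card_univ]
  exact (Finset.card_le_card hsub).trans Finset.card_image_le

theorem altG_le (U : Fin n → Bool) (x y : SimpleGraph (Fin n)) : altG x y ≤ closG x ⊔ YII U y := by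
  intro a b h
  rw [SimpleGraph.sup_adj]
  rcases h.2 with h1 | h1
  · exact Or.inl ⟨h.1, h1⟩
  · exact Or.inr ⟨h.1, Or.inl h1⟩

theorem le_altG (x y : SimpleGraph (Fin n)) : x ⊔ y ≤ altG x y := by
  intro a b h
  refine ⟨h.ne, ?_⟩
  rw [SimpleGraph.sup_adj] at h
  exact h.imp (fun h => h.reachable) (fun h => h.reachable)

/-- Distances to the root in the second test. -/
theorem test2_dist (U : Fin n → Bool) (r : Fin n) (x y : SimpleGraph (Fin n)) (hr : U r = true)
    (hG : (x ⊔ y).Connected) (Q : ℕ)
    (hQ : ∀ v, ∃ u, U u = true ∧ (altG x y).dist v u ≤ Q) (v : Fin n) :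
    (closG x ⊔ YII U y).dist v r ≤ Q + 1 := by
  have hA : (altG x y).Connected := hG.mono (le_altG x y)
  obtain ⟨u, hu, hd⟩ := hQ v
  obtain ⟨p, hp⟩ := hA.exists_walk_length_eq_dist v u
  have h1 : (closG x ⊔ YII U y).dist v u ≤ Q := by
    have h2 := SimpleGraph.dist_le (p.mapLe (altG_le U x y))
    rw [SimpleGraph.Walk.length_mapLe] at h2
    omega
  by_cases hur : u = r
  · rw [hur] at h1; omega
  · have hadj : (closG x ⊔ YII U y).Adj u r := by
      rw [SimpleGraph.sup_adj]
      exact Or.inr ⟨hur, Or.inr ⟨hu, hr⟩⟩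
    have hB : (closG x ⊔ YII U y).Connected := hA.mono (altG_le U x y)
    have h3 := hB.dist_triangle (u := v) (v := u) (w := r)
    have h4 : (closG x ⊔ YII U y).dist u r = 1 := SimpleGraph.dist_eq_one_iff_adj.mpr hadj
    omega

end

end Helper52_MA
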